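import Mathlib

namespace Pool.Agent.H.MP_d24be6_pr
open Finset

def Grid (k : ℕ) (S : Finset (ℕ × ℕ)) : Prop := ∃ p : Fin k → Fin k → ℕ × ℕ, (∀ a b, p a b ∈ S) ∧
  (∀ a b a' b', a < a' → (p a b).1 < (p a' b').1) ∧ ∀ a b a' b', b < b' → (p a b).2 < (p a' b').2

def q (s : ℕ) (p : ℕ × ℕ) : ℕ × ℕ := (p.1 / s, p.2 / s)

lemma Grid.of_q {k s : ℕ} {S : Finset (ℕ × ℕ)} (h : Grid k (S.image (q s))) : Grid k S := by
  obtain ⟨p, a, b, c⟩ := h
  choose p' h1 h2 using fun x y => mem_image.1 (a x y)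
  simp only [← h2, q] at b c
  exact ⟨p', h1, fun x y z w h => Nat.lt_of_div_lt_div (b x y z w h),
    fun x y z w h => Nat.lt_of_div_lt_div (c x y z w h)⟩

lemma Grid.swap {k : ℕ} {S : Finset (ℕ × ℕ)} (h : Grid k (S.image Prod.swap)) : Grid k S := by
  obtain ⟨p, a, b, c⟩ := h
  refine ⟨fun x y => (p y x).swap, fun x y => ?_, fun x y z w h => c _ _ _ _ h, fun x y z w h => b _ _ _ _ h⟩
  obtain ⟨z, h1, h2⟩ := mem_image.1 (a y x)
  simpa [← h2] using h1

def WD (k s n : ℕ) (S : Finset (ℕ × ℕ)) : Finset (ℕ × ℕ) :=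
  (range n ×ˢ range n).filter (fun B => k ≤ ((S.filter (q s · = B)).image Prod.snd).card)

lemma wide {k s n : ℕ} (hs : 0 < s) {S : Finset (ℕ × ℕ)} (h : ¬ Grid k S) :
    (WD k s n S).card ≤ n * (s.choose k * k) := by
  unfold WD
  refine (card_le_mul_card_image_of_maps_to (f := Prod.snd) (t := range n) (fun B hB => by
    simp only [mem_filter, mem_product] at hB; exact hB.1.2) _ (fun b _ => ?_)).trans
    (by rw [card_range, mul_comm])
  by_contra! c
  have e : ∀ B : ℕ × ℕ, ∃ Y, k ≤ ((S.filter (q s · = B)).image Prod.snd).card →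
      Y ⊆ (S.filter (q s · = B)).image Prod.snd ∧ Y.card = k := fun B => by
    by_cases c : k ≤ ((S.filter (q s · = B)).image Prod.snd).card
    · exact (exists_subset_card_eq c).imp (fun _ h _ => h)
    · exact ⟨∅, fun h => absurd h c⟩
  choose Y hY using e
  rw [show s.choose k = (powersetCard k (Ico (b * s) (b * s + s))).card by simp] at c
  obtain ⟨Z, -, z⟩ := exists_lt_card_fiber_of_mul_lt_card_of_maps_to (f := Y)
    (t := powersetCard k (Ico (b * s) (b * s + s))) (fun B hB => by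
      rw [mem_filter, mem_filter] at hB
      refine mem_powersetCard.2 ⟨fun y hy => ?_, (hY B hB.1.2).2⟩
      obtain ⟨p, p1, rfl⟩ := mem_image.1 ((hY B hB.1.2).1 hy)
      have := congrArg Prod.snd (mem_filter.1 p1).2
      simp only [q, hB.2] at this
      rw [mem_Ico, ← this]
      exact ⟨Nat.div_mul_le_self _ _, Nat.lt_div_mul_add hs⟩) c
  rw [← card_image_of_injOn (f := Prod.fst) (fun x hx y hy e => by
    simp only [coe_filter, mem_filter, Set.mem_ofPred_eq] at hx hy
    exact Prod.ext e (hx.1.2.trans hy.1.2.symm))] at z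
  obtain ⟨X, x1, x2⟩ := exists_subset_card_eq z.le
  have e : ∀ a : Fin k, Z.card = k ∧ ∀ y ∈ Z, ∃ p ∈ S, p.1 / s = X.orderEmbOfFin x2 a ∧ p.2 = y := by
    intro a
    obtain ⟨B, b1, b2⟩ := mem_image.1 (x1 (X.orderEmbOfFin_mem x2 a))
    simp only [mem_filter] at b1
    obtain ⟨y1, y2⟩ := hY B b1.1.1.2
    rw [b1.2] at y1 y2
    refine ⟨y2, fun y hy => ?_⟩
    obtain ⟨p, p1, rfl⟩ := mem_image.1 (y1 hy)
    exact ⟨p, (mem_filter.1 p1).1, (congrArg Prod.fst (mem_filter.1 p1).2).trans b2, rfl⟩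
  choose z1 p p1 p2 p3 using e
  refine h ⟨fun a b => p a _ (Z.orderEmbOfFin_mem (z1 a) b), fun a b => p1 _ _ _, fun a b a' b' h => ?_,
    fun a b a' b' h => ?_⟩
  · refine Nat.lt_of_div_lt_div (c := s) ?_
    rw [p2, p2]; exact (X.orderEmbOfFin x2).strictMono h
  · rw [p3, p3]; exact (Z.orderEmbOfFin (z1 a)).strictMono h

lemma blk {s : ℕ} (hs : 0 < s) (S : Finset (ℕ × ℕ)) (B : ℕ × ℕ) : S.filter (q s · = B) ⊆
    Ico (B.1 * s) (B.1 * s + s) ×ˢ Ico (B.2 * s) (B.2 * s + s) := by
  intro p hp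
  obtain rfl := (mem_filter.1 hp).2
  simp only [q, mem_product, mem_Ico]
  exact ⟨⟨Nat.div_mul_le_self _ _, Nat.lt_div_mul_add hs⟩, Nat.div_mul_le_self _ _, Nat.lt_div_mul_add hs⟩

lemma q_sub {s n : ℕ} {S : Finset (ℕ × ℕ)} (h : S ⊆ range (n * s) ×ˢ range (n * s)) :
    S.image (q s) ⊆ range n ×ˢ range n := by
  intro B hB
  obtain ⟨p, hp, rfl⟩ := mem_image.1 hB
  have := h hp
  simp only [q, mem_product, mem_range] at this ⊢
  exact ⟨Nat.div_lt_of_lt_mul (by linarith), Nat.div_lt_of_lt_mul (by linarith)⟩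

lemma mt (k : ℕ) : ∃ c, ∀ m, ∀ S ⊆ range ((k ^ 2 + 1) ^ m) ×ˢ range ((k ^ 2 + 1) ^ m), ¬ Grid k S →
    S.card ≤ c * (k ^ 2 + 1) ^ m := by
  set s := k ^ 2 + 1 with hs
  have s0 : 0 < s := by omega
  refine ⟨2 * (s.choose k * k) * s ^ 2 + 1, fun m => ?_⟩
  induction m with
  | zero => exact fun S h _ => (card_le_card h).trans (by simp)
  | succ m ih =>
    intro S h g
    rw [pow_succ] at h
    have a := ih _ (q_sub h) (fun e => g e.of_q)
    have w1 := wide (n := s ^ m) s0 g
    have w2 := wide (n := s ^ m) (S := S.image Prod.swap) s0 (fun e => g e.swap)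
    rw [← card_image_of_injective _ Prod.swap_injective] at w2
    rw [card_eq_sum_card_image (q s) S]
    refine (sum_le_sum (g := fun B => k ^ 2 + ((if B ∈ WD k s (s ^ m) S then s ^ 2 else 0) +
      (if B ∈ (WD k s (s ^ m) (S.image Prod.swap)).image Prod.swap then s ^ 2 else 0)))
      (fun B hB => ?_)).trans ?_
    rotate_left
    · rw [sum_add_distrib, sum_add_distrib, sum_ite_mem, sum_ite_mem]
      simp only [sum_const, smul_eq_mul]
      refine (add_le_add (Nat.mul_le_mul_right _ a) (add_le_add (Nat.mul_le_mul_right _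
        ((card_le_card inter_subset_right).trans w1)) (Nat.mul_le_mul_right _
        ((card_le_card inter_subset_right).trans w2)))).trans ?_
      rw [pow_succ s m]
      nth_rewrite 10 [hs]
      nlinarith [Nat.zero_le (s ^ m)]
    have b := (card_le_card (blk s0 S B)).trans (by simp [sq] : _ ≤ s ^ 2)
    have hB' := q_sub h hB
    split_ifs with c d d
    any_goals omega
    have c' : ((S.filter (q s · = B)).image Prod.snd).card ≤ k :=
      (not_le.1 (fun e => c (mem_filter.2 ⟨hB', e⟩))).le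
    have d' : ((S.filter (q s · = B)).image Prod.fst).card ≤ k := by
      refine (not_le.1 (fun e => d (mem_image.2 ⟨B.swap, mem_filter.2 ⟨?_, e.trans (card_le_card ?_)⟩,
        rfl⟩))).le
      · simpa [and_comm] using hB'
      · intro x hx
        obtain ⟨p, p1, rfl⟩ := mem_image.1 hx
        obtain ⟨p2, rfl⟩ := mem_filter.1 p1
        exact mem_image.2 ⟨p.swap, mem_filter.2 ⟨mem_image_of_mem _ p2, rfl⟩, rfl⟩
    refine (card_le_card subset_product).trans ?_
    rw [card_product, sq]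
    exact (Nat.mul_le_mul d' c').trans (by omega)

open Classical in
lemma klazar (k : ℕ) (hk : 1 ≤ k) : ∃ c, ∀ n, 1 ≤ n →
    (((range n ×ˢ range n).powerset).filter (fun S => ¬ Grid k S)).card ≤ c ^ n := by
  obtain ⟨c, hc⟩ := mt k
  set s := k ^ 2 + 1 with hs
  have s2 : 2 ≤ s := by nlinarith
  have K : ∀ m, (((range (s ^ m) ×ˢ range (s ^ m)).powerset).filter (fun S => ¬ Grid k S)).card ≤
      2 ^ ((s * s * c + 1) * s ^ m) := by
    intro m
    induction m with
    | zero => exact (card_filter_le _ _).trans (by simp; exact Nat.le_self_pow (by omega) 2)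
    | succ m ih =>
      refine (card_le_mul_card_image_of_maps_to (f := image (q s)) (fun S hS => ?_)
        (2 ^ (s * s * c * s ^ m)) (fun T hT => ?_)).trans ((Nat.mul_le_mul_left _ ih).trans ?_)
      · simp only [mem_filter, mem_powerset, pow_succ] at hS ⊢
        exact ⟨q_sub hS.1, fun e => hS.2 e.of_q⟩
      · simp only [mem_filter, mem_powerset] at hT
        refine (card_le_card (t := (T.biUnion (fun B => Ico (B.1 * s) (B.1 * s + s) ×ˢ
          Ico (B.2 * s) (B.2 * s + s))).powerset) (fun S hS => mem_powerset.2 (fun p hp => ?_))).trans ?_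
        · exact mem_biUnion.2 ⟨q s p, (mem_filter.1 hS).2 ▸ mem_image_of_mem _ hp,
            blk (by omega) S _ (mem_filter.2 ⟨hp, rfl⟩)⟩
        · rw [card_powerset]
          refine Nat.pow_le_pow_right (by norm_num) ((card_biUnion_le_card_mul _ _ (s * s)
            (fun B _ => by simp)).trans ?_)
          nlinarith [hc m T hT.1 hT.2]
      · rw [← pow_add, pow_succ s m]
        refine Nat.pow_le_pow_right (by norm_num) ?_
        nlinarith [Nat.mul_le_mul_left ((s * s * c + 1) * s ^ m) s2, Nat.zero_le (s ^ m)]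
  refine ⟨2 ^ ((s * s * c + 1) * s), fun n hn => ?_⟩
  have a := Nat.lt_pow_succ_log_self (b := s) s2 n
  refine (card_le_card (filter_subset_filter _ (powerset_mono.2 (product_subset_product
    (range_mono a.le) (range_mono a.le))))).trans ((K _).trans ?_)
  rw [← pow_mul, mul_assoc (s * s * c + 1), pow_succ']
  exact Nat.pow_le_pow_right (by norm_num) (Nat.mul_le_mul_left _ (Nat.mul_le_mul_left _
    (Nat.pow_log_le_self s (by omega))))

end Pool.Agent.H.MP_d24be6_pr
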