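import Pool.Agent.H.MP_d24be6_pr.A
import Pool.Agent.Lib.helper4.Ramsey

namespace Pool.Agent.H.MP_d24be6_pr
open Finset

def Forms {m N : ℕ} (A : Finset (Fin m)) (e f : Finset (Fin N)) : Prop :=
  ∃ φ : Fin m → Fin N, StrictMono φ ∧ e = A.image φ ∧ f = Aᶜ.image φ

def Clique {m N : ℕ} (P : Set (Finset (Fin m))) (C : Finset (Finset (Fin N))) : Prop :=
  ∀ e ∈ C, ∀ f ∈ C, e ≠ f → ∃ A ∈ P, Forms A e f ∨ Forms A f e

def Coll {m : ℕ} (A : Finset (Fin m)) : Prop :=
  ∀ k, ∃ (N : ℕ) (C : Finset (Finset (Fin N))), k ≤ C.card ∧ Clique {A} C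

def g {N : ℕ} (e : Finset (Fin N)) (θ : ℕ) : ℕ := (e.filter (·.val < θ)).card

def Harm {m : ℕ} (A B : Finset (Fin m)) : Prop :=
  A ≠ B ∧ Coll A ∧ Coll B ∧ ∀ i, g A (2 * i) = i ↔ g B (2 * i) = i

variable {m N : ℕ}

lemma g_mono (e : Finset (Fin N)) {a b : ℕ} (h : a ≤ b) : g e a ≤ g e b :=
  card_le_card (fun x => by simp only [mem_filter]; exact fun h' => ⟨h'.1, by omega⟩)

lemma g_lt {e : Finset (Fin N)} {y : Fin N} (h : y ∈ e) {a : ℕ} (ha : y.val < a) : g e y < g e a :=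
  card_lt_card ⟨fun x => by simp only [mem_filter]; exact fun h' => ⟨h'.1, by omega⟩,
    fun s => by simpa using s (mem_filter.2 ⟨h, ha⟩)⟩

lemma g_add (A : Finset (Fin m)) (c : ℕ) : g A c + g Aᶜ c = min m c := by
  rw [← Fin.card_filter_val_lt, g, g, ← card_union_of_disjoint (disjoint_filter_filter disjoint_compl_right),
    ← filter_union, union_compl]

lemma g_img {φ : Fin m → Fin N} (h : StrictMono φ) {c θ : ℕ} (k : ∀ x, (φ x).val < θ ↔ x.val < c)
    (A : Finset (Fin m)) : g (A.image φ) θ = g A c := by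
  simp only [g, filter_image, k, card_image_of_injective _ h.injective]

lemma Forms.l {A : Finset (Fin m)} {e f : Finset (Fin N)} (h : Forms A e f) (θ : ℕ) :
    ∃ c ≤ m, g e θ = g A c ∧ g f θ = g Aᶜ c := by
  obtain ⟨φ, h, rfl, rfl⟩ := h
  have k : ∀ x, (φ x).val < θ ↔ x.val < (univ.filter (fun x => (φ x).val < θ)).card := by
    intro x
    constructor
    · intro a
      have := card_le_card (s := Iic x) (t := univ.filter (fun x => (φ x).val < θ)) (fun y hy => by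
        have := h.monotone (mem_Iic.1 hy)
        simp; omega)
      simpa using this
    · intro a
      by_contra b
      have := card_le_card (t := Iio x) (s := univ.filter (fun x => (φ x).val < θ)) (fun y hy => by
        simp only [mem_filter, mem_Iio] at hy ⊢
        exact h.lt_iff_lt.1 (by omega))
      simp at this; omega
  exact ⟨_, (card_le_univ _).trans (by simp), g_img h k _, g_img h k _⟩

lemma Forms.r {A : Finset (Fin m)} {e f : Finset (Fin N)} (h : Forms A e f) (c : ℕ) :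
    ∃ θ, g e θ = g A c ∧ g f θ = g Aᶜ c := by
  obtain ⟨φ, h, rfl, rfl⟩ := h
  by_cases a : c < m
  · have k : ∀ x, (φ x).val < φ ⟨c, a⟩ ↔ x.val < c := fun x => h.lt_iff_lt
    exact ⟨_, g_img h k _, g_img h k _⟩
  · have k : ∀ x, (φ x).val < N ↔ x.val < c := fun x => iff_of_true (φ x).2 (by omega)
    exact ⟨_, g_img h k _, g_img h k _⟩

lemma Forms.cut {r : ℕ} {A : Finset (Fin (2 * r))} (hA : A.card = r) {e f : Finset (Fin N)}
    (h : Forms A e f) (i : ℕ) : g A (2 * i) = i ↔ ∃ θ, g e θ = i ∧ g f θ = i := by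
  constructor
  · intro a
    obtain ⟨θ, b, c⟩ := h.r (2 * i)
    have := g_add A (2 * i)
    have : g A (2 * i) ≤ r := (card_filter_le _ _).trans hA.le
    exact ⟨θ, by omega, by omega⟩
  · rintro ⟨θ, a, b⟩
    obtain ⟨c, c1, c2, c3⟩ := h.l θ
    have := g_add A c
    rw [show 2 * i = c by omega]; omega

lemma c4 {x1 x2 x3 x4 : Finset (Fin N)} {i : ℕ} (h12 : ∃ θ, g x1 θ = i ∧ g x2 θ = i)
    (h32 : ∃ θ, g x3 θ = i ∧ g x2 θ = i) (h34 : ∃ θ, g x3 θ = i ∧ g x4 θ = i)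
    (h14 : ∃ θ, g x1 θ = i ∧ g x4 θ = i) :
    (∃ θ, g x1 θ = i ∧ g x3 θ = i) ∨ ∃ θ, g x2 θ = i ∧ g x4 θ = i := by
  obtain ⟨a, a1, a2⟩ := h12
  obtain ⟨b, b1, b2⟩ := h32
  obtain ⟨c, c1, c2⟩ := h34
  obtain ⟨d, d1, d2⟩ := h14
  by_contra! h
  have k : ∀ (x : Finset (Fin N)) u v w, g x u = i → g x w = i → (u ≤ v ∧ v ≤ w) ∨ (w ≤ v ∧ v ≤ u) →
      g x v = i := fun x u v w p q s => by
    have := @g_mono _ x u v; have := @g_mono _ x v w; have := @g_mono _ x w v; have := @g_mono _ x v u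
    omega
  have : ¬ _ := fun s => h.1 b (k x1 a b d a1 d1 s) b1
  have : ¬ _ := fun s => h.1 c (k x1 a c d a1 d1 s) c1
  have : ¬ _ := fun s => h.1 a a1 (k x3 b a c b1 c1 s)
  have : ¬ _ := fun s => h.1 d d1 (k x3 b d c b1 c1 s)
  have : ¬ _ := fun s => h.2 c (k x2 a c b a2 b2 s) c2
  have : ¬ _ := fun s => h.2 d (k x2 a d b a2 b2 s) d2
  have : ¬ _ := fun s => h.2 a a2 (k x4 c a d c2 d2 s)
  have : ¬ _ := fun s => h.2 b b2 (k x4 c b d c2 d2 s)
  omega

lemma thr (m : ℕ) : ∃ L, ∀ (A : Finset (Fin m)) (N : ℕ) (C : Finset (Finset (Fin N))), L ≤ C.card →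
    Clique {A} C → Coll A := by
  have : ∀ A : Finset (Fin m), ∃ L, ∀ (N : ℕ) (C : Finset (Finset (Fin N))), L ≤ C.card →
      Clique {A} C → Coll A := fun A => by
    by_cases h : Coll A
    · exact ⟨0, fun _ _ _ _ => h⟩
    · simp only [Coll, not_forall, not_exists, not_and] at h
      exact h.imp (fun k hk N C a b => absurd b (hk N C a))
  choose L hL using this
  exact ⟨univ.sup L, fun A N C a => hL A N C ((le_sup (mem_univ A)).trans a)⟩

lemma chain {L : ℕ} {A : Finset (Fin m)} (E : ℕ → Finset (Fin N))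
    (h : ∀ i j, i < j → j < L → Forms A (E i) (E j) ∧ E i ≠ E j) :
    ∃ C : Finset (Finset (Fin N)), L ≤ C.card ∧ Clique {A} C := by
  refine ⟨(range L).image E, ?_, fun e he f hf n => ⟨A, rfl, ?_⟩⟩
  · rw [card_image_of_injOn, card_range]
    intro i hi j hj e
    rcases lt_trichotomy i j with c | c | c
    · exact absurd e (h i j c (by simpa using hj)).2
    · exact c
    · exact absurd e.symm (h j i c (by simpa using hi)).2
  · obtain ⟨i, hi, rfl⟩ := mem_image.1 he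
    obtain ⟨j, hj, rfl⟩ := mem_image.1 hf
    rcases lt_trichotomy i j with c | c | c
    · exact Or.inl (h i j c (by simpa using hj)).1
    · exact absurd (c ▸ rfl) n
    · exact Or.inr (h j i c (by simpa using hi)).1

lemma grid (r : ℕ) : ∃ k, 1 ≤ k ∧ ∀ (P : Set (Finset (Fin (2 * r)))), (∀ A ∈ P, A.card = r) →
    (∀ A ∈ P, ∀ B ∈ P, ¬ Harm A B) → ∀ (N : ℕ) (E : Fin k → Fin k → Finset (Fin N))
      (y : Fin k → Fin k → Fin N), (∀ a b, y a b ∈ E a b) → (∀ a b, (E a b).card = r) →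
      (∀ a b a' b', a < a' → E a b ≠ E a' b' ∧ ∃ A ∈ P, Forms A (E a b) (E a' b')) →
      (∀ a b a' b', b < b' → y a b < y a' b') → False := by
  obtain ⟨L, hL⟩ := thr (2 * r)
  obtain ⟨M, hM⟩ := Pool.Agent.Lib.helper4.Ramsey.ram
    (Finset (Fin (2 * r)) × Finset (Fin (2 * r)) × Fin (r + 1)) 4 (2 * (L + 5))
  refine ⟨M + 1, by omega, fun P hP hH N E y h1 h2 h3 h4 => ?_⟩
  have e : ∀ a b a' b', ∃ A, a < a' → A ∈ P ∧ Forms A (E a b) (E a' b') := fun a b a' b' => by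
    by_cases c : a < a'
    · exact (h3 a b a' b' c).2.imp (fun _ h _ => h)
    · exact ⟨∅, fun h => absurd h c⟩
  choose ch hc using e
  obtain ⟨Y, -, y1, y2⟩ := hM (Fin (M + 1)) univ (by simp) (fun t => (ch (t 0) (t 2) (t 1) (t 3),
    ch (t 0) (t 3) (t 1) (t 2), ⟨g (E (t 0) (t 2)) (y (t 0) (t 2)), Nat.lt_succ_of_le
      (h2 (t 0) (t 2) ▸ card_filter_le _ _)⟩))
  let u : ℕ → Fin (M + 1) := fun i => if h : i < 2 * (L + 5) then Y.orderEmbOfFin y1 ⟨i, h⟩ else 0
  have u1 : ∀ i j, i < j → j < 2 * (L + 5) → u i < u j := fun i j a b => by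
    simp only [u, dif_pos b, dif_pos (a.trans b)]
    exact (Y.orderEmbOfFin y1).strictMono a
  have u2 : ∀ i < 2 * (L + 5), u i ∈ Y := fun i a => by simp [u, dif_pos a]
  have T : ∀ i i' l l', i < i' → i' < L + 5 → l < l' → l' < L + 5 →
      StrictMono ![u i, u i', u (L + 5 + l), u (L + 5 + l')] ∧
        ∀ z, ![u i, u i', u (L + 5 + l), u (L + 5 + l')] z ∈ Y := fun i i' l l' a b c d =>
    ⟨Fin.strictMono_iff_lt_succ.2 (fun z => by fin_cases z <;> exact u1 _ _ (by omega) (by omega)),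
      fun z => by fin_cases z <;> exact u2 _ (by omega)⟩
  have T0 := T 0 1 0 1 (by omega) (by omega) (by omega) (by omega)
  have H := fun i i' l l' a b c d => y2 _ _ (T i i' l l' a b c d).1 T0.1 (T i i' l l' a b c d).2 T0.2
  simp only [Prod.mk.injEq, Fin.mk.injEq, Matrix.cons_val] at H
  have p0 := hc (u 0) (u (L + 5 + 0)) (u 1) (u (L + 5 + 1)) (u1 _ _ (by omega) (by omega))
  have q0 := hc (u 0) (u (L + 5 + 1)) (u 1) (u (L + 5 + 0)) (u1 _ _ (by omega) (by omega))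
  generalize ch (u 0) (u (L + 5 + 0)) (u 1) (u (L + 5 + 1)) = A at *
  generalize ch (u 0) (u (L + 5 + 1)) (u 1) (u (L + 5 + 0)) = B at *
  generalize g (E (u 0) (u (L + 5 + 0))) (y (u 0) (u (L + 5 + 0))) = j at *
  have FA : ∀ i i' l l', i < i' → i' < L + 5 → l < l' → l' < L + 5 →
      Forms A (E (u i) (u (L + 5 + l))) (E (u i') (u (L + 5 + l'))) := fun i i' l l' a b c d =>
    (H i i' l l' a b c d).1 ▸ (hc _ _ _ _ (u1 _ _ a (by omega))).2
  have FB : ∀ i i' l l', i < i' → i' < L + 5 → l < l' → l' < L + 5 →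
      Forms B (E (u i) (u (L + 5 + l'))) (E (u i') (u (L + 5 + l))) := fun i i' l l' a b c d =>
    (H i i' l l' a b c d).2.1 ▸ (hc _ _ _ _ (u1 _ _ a (by omega))).2
  have R : ∀ i l, i < 4 → l < 4 → g (E (u i) (u (L + 5 + l))) (y (u i) (u (L + 5 + l))) = j :=
    fun i l a b => (H i 4 l 4 a (by omega) b (by omega)).2.2
  have cA := fun i i' l l' a b c d => (FA i i' l l' a b c d).cut (hP A p0.1)
  have cB := fun i i' l l' a b c d => (FB i i' l l' a b c d).cut (hP B q0.1)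
  refine hH A p0.1 B q0.1 ⟨?_, ?_, ?_, fun i => ⟨fun a => ?_, fun a => ?_⟩⟩
  · rintro rfl
    obtain ⟨c, -, c1, c2⟩ := p0.2.l (y (u 0) (u (L + 5 + 0)) + 1)
    obtain ⟨θ, c3, c4⟩ := q0.2.r c
    have a1 := g_lt (h1 (u 0) (u (L + 5 + 0))) (Nat.lt_succ_self _)
    have a2 := g_mono (E (u 1) (u (L + 5 + 1))) (Nat.succ_le_of_lt (h4 (u 0) (u (L + 5 + 0)) (u 1)
      (u (L + 5 + 1)) (u1 _ _ (by omega) (by omega))))
    have a3 := h4 (u 1) (u (L + 5 + 0)) (u 0) (u (L + 5 + 1)) (u1 _ _ (by omega) (by omega))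
    have a4 := @g_lt _ _ _ (h1 (u 1) (u (L + 5 + 0))) θ
    have a5 := @g_mono _ (E (u 0) (u (L + 5 + 1))) θ (y (u 0) (u (L + 5 + 1)))
    have := R 0 0; have := R 1 1; have := R 0 1; have := R 1 0
    simp only [Nat.succ_eq_add_one] at a1 a2
    omega
  · obtain ⟨C, a, b⟩ := chain (L := L) (fun i => E (u i) (u (L + 5 + i))) (fun i j a b =>
      ⟨FA _ _ _ _ a (by omega) a (by omega), (h3 _ _ _ _ (u1 _ _ a (by omega))).1⟩)
    exact hL _ _ C a b
  · obtain ⟨C, a, b⟩ := chain (L := L) (fun i => E (u i) (u (L + 5 + (L - i)))) (fun i j a b =>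
      ⟨FB _ _ _ _ a (by omega) (by omega) (by omega), (h3 _ _ _ _ (u1 _ _ a (by omega))).1⟩)
    exact hL _ _ C a b
  · exact (c4 ((cA 0 2 1 3 (by omega) (by omega) (by omega) (by omega) i).1 a)
      ((cA 1 2 0 3 (by omega) (by omega) (by omega) (by omega) i).1 a)
      ((cA 1 3 0 2 (by omega) (by omega) (by omega) (by omega) i).1 a)
      ((cA 0 3 1 2 (by omega) (by omega) (by omega) (by omega) i).1 a)).elim
      (cB 0 1 0 1 (by omega) (by omega) (by omega) (by omega) i).2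
      (cB 2 3 2 3 (by omega) (by omega) (by omega) (by omega) i).2
  · exact (c4 ((cB 0 2 0 2 (by omega) (by omega) (by omega) (by omega) i).1 a)
      ((cB 1 2 0 3 (by omega) (by omega) (by omega) (by omega) i).1 a)
      ((cB 1 3 1 3 (by omega) (by omega) (by omega) (by omega) i).1 a)
      ((cB 0 3 1 2 (by omega) (by omega) (by omega) (by omega) i).1 a)).elim
      (cA 0 1 2 3 (by omega) (by omega) (by omega) (by omega) i).2
      (cA 2 3 0 1 (by omega) (by omega) (by omega) (by omega) i).2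

end Pool.Agent.H.MP_d24be6_pr
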