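import Pool.Agent.H.MP_d24be6_pr.B
import Pool.Agent.H.MP_dfc2f8_pr.A

namespace Pool.Agent.H.MP_d24be6_pr
open Finset Pool.Agent.H.MP_e84969_co Pool.Agent.H.MP_c4b7b1_co Filter

variable {N : ℕ}

def IsM (r : ℕ) (U : Finset (Fin N)) (M : Finset (Finset (Fin N))) : Prop :=
  (∀ e ∈ M, e.card = r) ∧ (∀ x, x ∈ U ↔ ∃ e ∈ M, x ∈ e) ∧ ∀ e ∈ M, ∀ f ∈ M, ∀ x, x ∈ e → x ∈ f → e = f

def Rel (C : Finset (Finset (Fin N))) (z : Fin N × Fin N) : Prop :=
  ∃ e ∈ C, z.1 ∈ e ∧ z.2 ∈ e ∧ ∀ w ∈ e, z.1 ≤ w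

lemma Rel.sub {r : ℕ} {U : Finset (Fin N)} {C D : Finset (Finset (Fin N))} (h : IsM (r + 1) U C)
    (h' : IsM (r + 1) U D) (e : ∀ z, Rel C z ↔ Rel D z) : C ⊆ D := by
  intro a ha
  have n : a.Nonempty := card_pos.1 (by rw [h.1 a ha]; omega)
  obtain ⟨b, b1, b2, -, b3⟩ := (e (a.min' n, a.min' n)).1 ⟨a, ha, a.min'_mem n, a.min'_mem n, a.min'_le⟩
  refine eq_of_subset_of_card_le (s := a) (t := b) (fun y hy => ?_) (by rw [h.1 a ha, h'.1 b b1]) ▸ b1
  obtain ⟨c, c1, c2, c3, -⟩ := (e (a.min' n, y)).1 ⟨a, ha, a.min'_mem n, hy, a.min'_le⟩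
  exact h'.2.2 c c1 b b1 _ c2 b2 ▸ c3

lemma clq_cnt (r : ℕ) : ∃ c : ℕ, ∀ (P : Set (Finset (Fin (2 * (r + 1))))),
    (∀ A ∈ P, A.card = r + 1 ∧ ∃ z ∈ A, z.val = 0) → (∀ A ∈ P, ∀ B ∈ P, ¬ Harm A B) →
    ∀ (N : ℕ) (U : Finset (Fin N)), 1 ≤ U.card →
      cnt (fun C => IsM (r + 1) U C ∧ Clique P C) ≤ c ^ U.card := by
  classical
  obtain ⟨k, k1, hk⟩ := grid (r + 1)
  obtain ⟨c, hc⟩ := klazar k k1
  refine ⟨c, fun P hP hH N U hU => ?_⟩
  have gl : ∀ x y : Fin N, g U x < g U y → x < y := fun x y h => by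
    by_contra n; have := g_mono U (not_lt.1 n : y.val ≤ x.val); omega
  have gi : ∀ x ∈ U, ∀ y ∈ U, g U x = g U y → x = y := fun x a y b h => by
    have := @g_lt _ _ _ a y; have := @g_lt _ _ _ b x; omega
  rw [cnt_eq_card]
  refine Nat.cast_le.2 (card_le_card_of_injOn (fun C => (univ.filter (Rel C)).image
    (fun z => (g U z.1, g U z.2))) (fun C hC => ?_) (fun C hC D hD e => ?_)) |>.trans
    (by exact_mod_cast hc _ hU)
  · simp only [coe_filter, mem_univ, true_and, Set.mem_ofPred_eq, mem_powerset] at hC ⊢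
    refine ⟨fun p hp => ?_, fun ⟨p, p1, p2, p3⟩ => ?_⟩
    · obtain ⟨z, z1, rfl⟩ := mem_image.1 hp
      obtain ⟨e, e1, e2, e3, -⟩ := (mem_filter.1 z1).2
      have k : ∀ x ∈ e, g U x < U.card := fun x hx => (g_lt ((hC.1.2.1 x).2 ⟨e, e1, hx⟩) x.2).trans_le
        (card_filter_le _ _)
      simp [k _ e2, k _ e3]
    · choose z z1 z2 using fun a b => mem_image.1 (p1 a b)
      choose E e1 e2 e3 e4 using fun a b => (mem_filter.1 (z1 a b)).2
      simp only [← z2] at p2 p3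
      refine hk P (fun A a => (hP A a).1) hH N E _ e3 (fun a b => hC.1.1 _ (e1 a b))
        (fun a b a' b' h => ?_) (fun a b a' b' h => gl _ _ (p3 a b a' b' h))
      have l := gl _ _ (p2 a b a' b' h)
      have n : E a b ≠ E a' b' := fun e => l.not_ge (e4 a' b' _ (e ▸ e2 a b))
      obtain ⟨A, a1, a2⟩ := hC.2 _ (e1 a b) _ (e1 a' b') n
      refine ⟨n, A, a1, a2.resolve_right (fun ⟨φ, f1, f2, f3⟩ => ?_)⟩
      obtain ⟨o, o1, o2⟩ := (hP A a1).2
      obtain ⟨t, -, t2⟩ := mem_image.1 (f3 ▸ e2 a b)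
      exact l.not_ge ((e4 a' b' _ (f2 ▸ mem_image_of_mem _ o1)).trans (t2 ▸ f1.monotone (by
        rw [Fin.le_def]; omega)))
  · simp only [coe_filter, mem_univ, true_and, Set.mem_ofPred_eq] at hC hD
    have k : ∀ C D : Finset (Finset (Fin N)), IsM (r + 1) U C → IsM (r + 1) U D →
        (univ.filter (Rel C)).image (fun z => (g U z.1, g U z.2)) =
        (univ.filter (Rel D)).image (fun z => (g U z.1, g U z.2)) → ∀ z, Rel C z → Rel D z := by
      intro C D hC hD e z hz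
      obtain ⟨w, w1, w2⟩ := mem_image.1 (e ▸ mem_image_of_mem _ (mem_filter.2 ⟨mem_univ z, hz⟩))
      replace w1 := (mem_filter.1 w1).2
      obtain ⟨a, a1, a2, a3, -⟩ := hz
      obtain ⟨b, b1, b2, b3, -⟩ := id w1
      simp only [Prod.mk.injEq] at w2
      rwa [← Prod.ext (gi _ ((hD.2.1 _).2 ⟨b, b1, b2⟩) _ ((hC.2.1 _).2 ⟨a, a1, a2⟩) w2.1)
        (gi _ ((hD.2.1 _).2 ⟨b, b1, b3⟩) _ ((hC.2.1 _).2 ⟨a, a1, a3⟩) w2.2)]
    have e' := fun z => Iff.intro (k C D hC.1 hD.1 e z) (k D C hD.1 hC.1 e.symm z)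
    exact (Rel.sub hC.1 hD.1 e').antisymm (Rel.sub hD.1 hC.1 (fun z => (e' z).symm))

lemma ch_lo (K : ℕ) (s : ℕ) : ∀ m, s * (K + 1) ≤ m → (K + 1) ^ s ≤ m.choose s := by
  induction s with
  | zero => simp
  | succ s ih =>
    intro m h
    obtain ⟨m, rfl⟩ := Nat.exists_eq_succ_of_ne_zero (by nlinarith : m ≠ 0)
    have a := ih m (by nlinarith)
    have b := Nat.add_one_mul_choose_eq m s
    refine Nat.le_of_mul_le_mul_right (le_trans ?_ b.le) (by omega : 0 < s + 1)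
    rw [pow_succ, mul_assoc, mul_comm (K + 1), mul_comm]
    exact Nat.mul_le_mul h a

lemma low (s K : ℕ) : ∀ U : Finset (Fin N), U.card = (s + 1) * K →
    (K.factorial : ℝ) ^ s ≤ cnt (IsM (s + 1) U) := by
  induction K with
  | zero =>
    intro U h
    obtain rfl : U = ∅ := by simpa using h
    exact le_trans (by simp [cnt]) (cnt_mono (p := fun C => C = ∅) (by rintro _ rfl; simp [IsM]))
  | succ K ih =>
    intro U h
    obtain ⟨x, hx⟩ : U.Nonempty := card_pos.1 (by rw [h]; positivity)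
    have k : ∀ T : Finset (Fin N), T ⊆ U.erase x ∧ T.card = s →
        x ∉ T ∧ insert x T ⊆ U ∧ (insert x T).card = s + 1 := fun T h =>
      have : x ∉ T := fun e => by simpa using h.1 e
      ⟨this, insert_subset hx (h.1.trans (erase_subset _ _)), by rw [card_insert_of_notMem this, h.2]⟩
    refine le_trans ?_ ((pair_lo (fun T : Finset (Fin N) => T ⊆ U.erase x ∧ T.card = s)
      (fun T => IsM (s + 1) (U \ insert x T)) _ (fun T hT => ih _ (by
        rw [card_sdiff_of_subset (k T hT).2.1, (k T hT).2.2, h, mul_add]; simp))).trans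
      (cnt_inj (fun z => insert (insert x z.1) z.2) ?_ ?_))
    · rw [MP_dfc2f8_pr.cnt_pc, Nat.factorial_succ, Nat.cast_mul, mul_pow, card_erase_of_mem hx]
      gcongr
      exact_mod_cast ch_lo K s _ (by rw [h, add_mul]; omega)
    · rintro ⟨T, C⟩ ⟨a, b1, b2, b3⟩
      obtain ⟨k1, k2, k3⟩ := k T a
      dsimp only at *
      generalize insert x T = e at *
      clear k ih a h
      refine ⟨by simpa [k3] using b1, fun y => ?_, fun u a v b y p q => ?_⟩
      · have := b2 y; have := @k2 y; simp only [mem_insert, mem_sdiff] at *; grind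
      · have := (b2 y).2 ∘ Exists.intro u; have := (b2 y).2 ∘ Exists.intro v; have := b3 u
        clear b2 b3
        simp only [mem_insert, mem_sdiff] at *; grind
    · rintro ⟨T, C⟩ ⟨T', C'⟩ ⟨a, -, b, -⟩ ⟨a', -, b', -⟩ e
      have n : ∀ {T : Finset (Fin N)} {C : Finset (Finset (Fin N))}, (∀ y, y ∈ U \ insert x T ↔ ∃ e ∈ C, y ∈ e) → ∀ T', insert x T' ∉ C :=
        fun h T' c => by simpa using (h x).2 ⟨_, c, mem_insert_self _ _⟩
      dsimp only at *
      have e1 : insert x T = insert x T' := (mem_insert.1 (e ▸ mem_insert_self _ _)).resolve_right (n b' T)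
      rw [e1] at e
      exact Prod.ext ((insert_erase_invOn.2.injOn (by simpa using (k T a).1) (by simpa using (k T' a').1) e1))
        ((insert_erase_invOn.2.injOn (by simpa using n b T') (by simpa using n b' T') e))

lemma IsM.card {r : ℕ} {U : Finset (Fin N)} {M : Finset (Finset (Fin N))} (h : IsM r U M) :
    U.card = r * M.card := by
  have : U = M.biUnion (fun e => e) := by ext x; simp [h.2.1]
  rw [this, card_biUnion (fun e a f b n => disjoint_left.2 (fun x p q => n (h.2.2 e a f b x p q))),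
    sum_congr rfl h.1]
  simp [mul_comm]

lemma first (s n K c : ℕ) (Q : Finset (Finset (Fin ((s + 1) * n))) → Prop)
    (hc : ∀ U : Finset (Fin ((s + 1) * n)), U.card = (s + 1) * K →
      cnt (fun C => IsM (s + 1) U C ∧ Q C) ≤ c ^ U.card) :
    cnt (fun M => IsM (s + 1) univ M ∧ ∃ C ⊆ M, C.card = K ∧ Q C) * (K.factorial : ℝ) ^ s ≤
      cnt (IsM (N := (s + 1) * n) (s + 1) univ) * n.choose K * c ^ ((s + 1) * K) := by
  let V : Finset (Finset (Fin ((s + 1) * n))) → Prop := fun R =>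
    IsM (s + 1) (R.biUnion id) R ∧ (R.biUnion id)ᶜ.card = (s + 1) * K
  have a := (cnt_surj (r := fun M => IsM (s + 1) univ M ∧ ∃ C ⊆ M, C.card = K ∧ Q C)
    (fun z => z.1 ∪ z.2) (fun M ⟨h, C, c1, c2, c3⟩ => by
      have m : IsM (s + 1) ((M \ C).biUnion id)ᶜ C := ⟨fun e a => h.1 e (c1 a), fun x => by
        have := h.2.1 x; have := h.2.2; have := @c1
        simp only [mem_compl, mem_biUnion, mem_sdiff, id, mem_univ] at *
        grind, fun e a f b => h.2.2 e (c1 a) f (c1 b)⟩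
      exact ⟨(M \ C, C), ⟨⟨⟨fun e a => h.1 e (mem_sdiff.1 a).1, fun x => by simp, fun e a f b =>
        h.2.2 e (mem_sdiff.1 a).1 f (mem_sdiff.1 b).1⟩, c2 ▸ m.card⟩, m, c3⟩,
        sdiff_union_of_subset c1⟩)).trans
    (pair_up V (fun R C => IsM (s + 1) (R.biUnion id)ᶜ C ∧ Q C) _ (fun R h => h.2 ▸ hc _ h.2))
  have b := (pair_lo V (fun R => IsM (s + 1) (R.biUnion id)ᶜ) _ (fun R h => low s K _ h.2)).trans
    ((cnt_inj (fun z => (z.1 ∪ z.2, z.2)) (fun ⟨R, C⟩ ⟨⟨h, h1⟩, h2⟩ => ?_) ?_).trans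
      (pair_up (IsM (N := (s + 1) * n) (s + 1) univ) (fun M C => C ⊆ M ∧ C.card = K) (n.choose K)
      (fun M h => by
        have := h.card
        simp only [card_univ, Fintype.card_fin, mul_eq_mul_left_iff] at this
        rw [MP_dfc2f8_pr.cnt_pc, ← this.resolve_right (by omega)])))
  rotate_right
  · calc _ ≤ cnt V * c ^ ((s + 1) * K) * (K.factorial : ℝ) ^ s := by gcongr
      _ = cnt V * (K.factorial : ℝ) ^ s * c ^ ((s + 1) * K) := by ring
      _ ≤ _ := by gcongr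
  · have c := h2.card
    obtain ⟨h3, -, h4⟩ := h
    obtain ⟨h5, h6, h7⟩ := h2
    simp only [mem_compl, mem_biUnion, id] at h6
    refine ⟨⟨?_, fun x => ?_, ?_⟩, subset_union_right, by nlinarith⟩ <;> simp only [mem_union, mem_univ]
    · grind
    · have := h6 x; grind
    · intro e a f b x p q
      have := (h6 x).2 ∘ Exists.intro e; have := (h6 x).2 ∘ Exists.intro f
      have := h4 e; have := h7 e
      grind
  · have k : ∀ R C : Finset (Finset (Fin ((s + 1) * n))), IsM (s + 1) (R.biUnion id)ᶜ C →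
        (R ∪ C) \ C = R := fun R C h => union_sdiff_cancel_right (disjoint_left.2 (fun e a b => by
      obtain ⟨x, hx⟩ : e.Nonempty := card_pos.1 (by rw [h.1 e b]; omega)
      exact mem_compl.1 ((h.2.1 x).2 ⟨e, b, hx⟩) (mem_biUnion.2 ⟨e, a, hx⟩)))
    rintro ⟨R, C⟩ ⟨R', C'⟩ ⟨-, h⟩ ⟨-, h'⟩ e
    simp only [Prod.mk.injEq] at e ⊢
    obtain ⟨e, rfl⟩ := e
    exact ⟨by rw [← k R C h, e, k R' C h'], rfl⟩

theorem main (s : ℕ) (P : Set (Finset (Fin (2 * (s + 1)))))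
    (hP : ∀ A ∈ P, A.card = s + 1 ∧ ∃ z ∈ A, z.val = 0) (hH : ∀ A ∈ P, ∀ B ∈ P, ¬ Harm A B) :
    ∃ c : ℝ, 0 < c ∧ Tendsto (fun n : ℕ => cnt (fun M => IsM (N := (s + 1) * n) (s + 1) univ M ∧
      ∀ C ⊆ M, Clique P C → (C.card : ℝ) ≤ c * n ^ (1 / (s + 1 : ℕ) : ℝ)) /
        cnt (IsM (N := (s + 1) * n) (s + 1) univ)) atTop (nhds 1) := by
  obtain ⟨c, hc⟩ := clq_cnt s
  refine ⟨6 * c + 1, by positivity, ?_⟩
  have t1 : Tendsto (fun n : ℕ => ⌊(6 * c + 1 : ℝ) * n ^ (1 / (s + 1 : ℕ) : ℝ)⌋₊ + 1) atTop atTop :=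
    (tendsto_add_atTop_nat 1).comp (tendsto_nat_floor_atTop.comp (Tendsto.const_mul_atTop (by positivity)
      ((tendsto_rpow_atTop (by positivity)).comp tendsto_natCast_atTop_atTop)))
  have t2 := ((tendsto_pow_atTop_nhds_zero_of_lt_one (r := (1 / 2 : ℝ)) (by norm_num)
    (by norm_num)).comp t1).const_sub 1
  rw [sub_zero] at t2
  refine tendsto_of_tendsto_of_tendsto_of_le_of_le t2 tendsto_const_nhds (fun n => ?_)
    (fun n => div_le_one_of_le₀ (cnt_mono (fun _ h => h.1)) (cnt_nonneg _))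
  have m0 := (by positivity : (0 : ℝ) < _).trans_le (low s n (univ : Finset (Fin ((s + 1) * n))) (by simp))
  have k1 := Nat.lt_floor_add_one ((6 * c + 1 : ℝ) * n ^ (1 / (s + 1 : ℕ) : ℝ))
  have k2 := fun k : ℕ => Nat.le_floor_iff' (a := (6 * c + 1 : ℝ) * n ^ (1 / (s + 1 : ℕ) : ℝ)) (n := k)
  simp only [Function.comp]
  generalize ⌊(6 * c + 1 : ℝ) * n ^ (1 / (s + 1 : ℕ) : ℝ)⌋₊ = k at *
  have a := first s n (k + 1) c (Clique P) (fun U h => hc P hP hH _ U (by rw [h]; nlinarith))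
  have b := cnt_or (p := IsM (N := (s + 1) * n) (s + 1) univ)
    (r := fun M => IsM (N := (s + 1) * n) (s + 1) univ M ∧
      ∀ C ⊆ M, Clique P C → (C.card : ℝ) ≤ (6 * c + 1) * n ^ (1 / (s + 1 : ℕ) : ℝ))
    (s := fun M => IsM (s + 1) univ M ∧ ∃ C ⊆ M, C.card = k + 1 ∧ Clique P C) (fun M h => by
      refine or_iff_not_imp_right.2 (fun e => ⟨h, fun C c1 c2 => ?_⟩)
      rcases Nat.eq_zero_or_pos C.card with z | z
      · rw [z, Nat.cast_zero]; positivity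
      refine (k2 _ z.ne').1 (not_lt.1 (fun l => e ⟨h, ?_⟩))
      obtain ⟨D, d1, d2⟩ := exists_subset_card_eq (Nat.succ_le_of_lt l)
      exact ⟨D, d1.trans c1, d2, fun x a y b => c2 x (d1 a) y (d1 b)⟩)
  have f1 : (n.choose (k + 1) : ℝ) * (k + 1).factorial ≤ n ^ (k + 1) := by
    rw [← le_div_iff₀ (by positivity)]; exact Nat.choose_le_pow_div _ _
  have f2 : ((k + 1 : ℕ) / 3 : ℝ) ^ (k + 1) ≤ (k + 1).factorial := by
    have := Real.pow_div_factorial_le_exp ((k + 1 : ℕ) : ℝ) (by positivity) (k + 1)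
    rw [div_le_iff₀ (by positivity), ← mul_one (((k + 1 : ℕ) : ℝ)), Real.exp_nat_mul, mul_one] at this
    rw [div_pow, div_le_iff₀ (by positivity), mul_comm]
    refine this.trans ?_
    gcongr; exact Real.exp_one_lt_d9.le.trans (by norm_num)
  have f3 : 2 * (n * (c : ℝ) ^ (s + 1)) ≤ ((k + 1 : ℕ) / 3 : ℝ) ^ (s + 1) := by
    have x0 : (0 : ℝ) ≤ n ^ (1 / (s + 1 : ℕ) : ℝ) := by positivity
    refine le_trans ?_ (pow_le_pow_left₀ (by positivity) (by rw [Nat.cast_succ k]; nlinarith :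
      2 * (n ^ (1 / (s + 1 : ℕ) : ℝ) * (c : ℝ)) ≤ _) _)
    rw [mul_pow, mul_pow, one_div, Real.rpow_inv_natCast_pow (by positivity) (by omega)]
    gcongr; exact le_self_pow₀ (by norm_num) (by omega)
  have f4 : (n.choose (k + 1) : ℝ) * c ^ ((s + 1) * (k + 1)) ≤
      (1 / 2) ^ (k + 1) * ((k + 1).factorial : ℝ) ^ s := by
    refine le_of_mul_le_mul_right ?_ (by positivity : (0 : ℝ) < (k + 1).factorial)
    calc _ = n.choose (k + 1) * ((k + 1).factorial : ℝ) * c ^ ((s + 1) * (k + 1)) := by ring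
      _ ≤ n ^ (k + 1) * c ^ ((s + 1) * (k + 1)) := by gcongr
      _ = (1 / 2) ^ (k + 1) * (2 * (n * (c : ℝ) ^ (s + 1))) ^ (k + 1) := by
        rw [pow_mul, ← mul_pow, ← mul_pow]; congr 1; ring
      _ ≤ (1 / 2) ^ (k + 1) * (((k + 1 : ℕ) / 3 : ℝ) ^ (s + 1)) ^ (k + 1) := by gcongr
      _ = (1 / 2) ^ (k + 1) * (((k + 1 : ℕ) / 3 : ℝ) ^ (k + 1)) ^ (s + 1) := by rw [pow_right_comm]
      _ ≤ (1 / 2) ^ (k + 1) * ((k + 1).factorial : ℝ) ^ (s + 1) := by gcongr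
      _ = _ := by ring
  have f5 := le_of_mul_le_mul_right (a.trans ((mul_assoc _ _ _).le.trans
    ((mul_le_mul_of_nonneg_left f4 m0.le).trans (mul_assoc _ _ _).ge))) (by positivity)
  rw [le_div_iff₀ m0]
  linarith

end Pool.Agent.H.MP_d24be6_pr
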